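import Pool.Agent.H70.Morita

set_option autoImplicit false

/-!
The image of the second Morita class in the homology of `GL(6, ℤ)` is nonzero.

Write `F_(2k+2)` for the free group on `a = x_0`, `b = x_1` and `y_j = x_(j+2)`, `0 ≤ j < 2k`.  The
automorphisms fixing `a` and `b` and sending `y_j` to `a ^ p_(0,j) * y_j * b ^ p_(1,j)` form a free
abelian group of rank `4k`, and Morita's class `μ_k` in `H_(4k)(Out(F_(2k+2)); ℚ)` is, up to a
nonzero factor, the class `moritaTorus k` of this torus.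
-/

namespace Pool.Agent.Results.MP_fe8f00_al.SecondMoritaClass

open Pool.Agent.H70

/-- First part: for every `k ≥ 2`, the class `moritaTorus k` of `H_(4k)(Out(F_(2k+2)); ℚ)` has
nonzero image in `H_(4k)(GL(2k+2, ℤ); ℚ)` under the map induced by the action on the
abelianisation.  Second part: every class `μ` spanning `H_8(Out(F_6); ℚ)` has nonzero image in
`H_8(GL(6, ℤ); ℚ)`. -/
theorem result :
    (∀ k : ℕ, 2 ≤ k → mapQ (rho (Fin (2 * k + 2))) (2 * (2 * k)) (moritaTorus k) ≠ 0) ∧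
    ∀ μ : HQ (OutAut (FreeGroup (Fin 6))) 8,
      (∀ x : HQ (OutAut (FreeGroup (Fin 6))) 8, ∃ c : ℚ, x = c • μ) →
        mapQ (rho (Fin 6)) 8 μ ≠ 0 := by
  refine ⟨rho_moritaTorus_ne_zero, fun μ hμ h0 => ?_⟩
  obtain ⟨c, hc⟩ := hμ (moritaTorus 2)
  have h1 : mapQ (rho (Fin 6)) 8 (moritaTorus 2) ≠ 0 := rho_moritaTorus_ne_zero 2 le_rfl
  apply h1
  rw [hc, map_smul, h0, smul_zero]

end Pool.Agent.Results.MP_fe8f00_al.SecondMoritaClass
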